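import Mathlib
import Pool.Agent.W2helper93.TQ.A9L

/-!
# Local indices of `y² = x³ - 1` at the places above three of absolute ramification index one or two

Adapted from `Pool.Agent.W2helper93.TQ.A9L`.
-/

set_option autoImplicit false

open scoped Classical

namespace Pool.Agent.W2helper53.TQ

open WithZero
open Pool.Agent.Y696 (NonsingRed)
open WeierstrassCurve.Affine (Point)
open Pool.Agent.W2helper93.TQ

section

variable {L : Type} [Field L] {v : Valuation L ℤᵐ⁰}

/-- the points of singular reduction -/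
theorem hsing {e : ℤ} (he : 1 ≤ e) (he2 : e ≤ 2) (v3 : v (3 : L) = exp (-e))
    {H : AddSubgroup (Ec L).toAffine.Point} (hH : ∀ P, P ∈ H ↔ NonsingRed v (Ec L) P)
    {P : (Ec L).toAffine.Point} {x y : L} (hA : At P x y) (hP : P ∉ H) :
    v (x - 1) ≤ exp (-1 : ℤ) ∧ v y ≤ exp (-1 : ℤ) := by
  have v3l : v (3 : L) < 1 := by
    rw [v3, lt_one_iff]
    exact exp_le_exp.2 (by omega)
  have v2 : v (2 : L) = 1 := by
    have e : (2 : L) = -1 + 3 := by norm_num
    rw [e, Valuation.map_add_eq_of_lt_left v (by rw [Valuation.map_neg, map_one]; exact v3l),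
      Valuation.map_neg, map_one]
  obtain ⟨h1, h2⟩ := (not_mem_iff hH hA).1 hP
  have he := hA.eqn
  rw [map_mul, v2, one_mul] at h1
  have hx : v x ≤ 1 := by
    by_contra hc
    rw [not_le] at hc
    have hx0 : v x ≠ 0 := (lt_trans zero_lt_one hc).ne'
    rw [map_mul, v3, map_pow] at h2
    have h3 : log (exp (-e) * v x ^ 2) < 0 := by
      rw [← log_one, log_lt_log (mul_ne_zero exp_ne_zero (pow_ne_zero 2 hx0)) one_ne_zero]
      exact h2
    have h4 : 0 < log (v x) := by
      rw [← log_one, log_lt_log one_ne_zero hx0]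
      exact hc
    rw [log_mul exp_ne_zero (pow_ne_zero 2 hx0), log_exp, log_pow, nsmul_eq_mul] at h3
    push_cast at h3
    omega
  have hx1 : v (x - 1) < 1 := by
    apply pow_l three_ne_zero
    have e : (x - 1) ^ 3 = y ^ 2 - 3 * (x * (x - 1)) := by rw [he]; ring
    rw [e]
    refine vsubl ?_ ?_
    · rw [map_pow]
      exact pow_lt_one₀ zero_le' h1 (by norm_num)
    · rw [map_mul, map_mul]
      exact m2l v3l (mul_le_one' hx (vsub hx (by rw [map_one])))
  exact ⟨lt_one_iff.1 hx1, lt_one_iff.1 h1⟩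

/-- the index, if there are at most three classes of singular points -/
theorem core {e : ℤ} (he : 1 ≤ e) (he2 : e ≤ 2) (v3 : v (3 : L) = exp (-e))
    {H : AddSubgroup (Ec L).toAffine.Point} (hH : ∀ P, P ∈ H ↔ NonsingRed v (Ec L) P)
    (hy2 : ∀ {P : (Ec L).toAffine.Point} {x y : L}, At P x y → P ∉ H → v y ≤ exp (-e))
    (r : Fin 3 → L) (hcls : ∀ {P : (Ec L).toAffine.Point}, P ∉ H → ∃ (k : Fin 3) (x y : L),
      At P x y ∧ v (x - r k) ≤ exp (-e)) : H.index = 1 ∨ H.index = 2 ∨ H.index = 4 := by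
  have v3l : v (3 : L) < 1 := by
    rw [v3, lt_one_iff]
    exact exp_le_exp.2 (by omega)
  have v2 : v (2 : L) = 1 := by
    have e : (2 : L) = -1 + 3 := by norm_num
    rw [e, Valuation.map_add_eq_of_lt_left v (by rw [Valuation.map_neg, map_one]; exact v3l),
      Valuation.map_neg, map_one]
  have hsing : ∀ {P : (Ec L).toAffine.Point} {x y : L}, At P x y → P ∉ H →
      v (x - 1) ≤ exp (-1 : ℤ) ∧ v y ≤ exp (-1 : ℤ) := fun hA hP => hsing he he2 v3 hH hA hP
  have hx1 : ∀ {x : L}, v (x - 1) ≤ exp (-1 : ℤ) → v x = 1 := by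
    intro x hx
    have e : x = 1 + (x - 1) := by ring
    rw [e, Valuation.map_add_eq_of_lt_left v (by
      rw [map_one]; exact lt_one_iff.2 hx), map_one]
  -- a sum with integral inverse slope is of nonsingular reduction
  have hslope : ∀ {P : (Ec L).toAffine.Point} {l x x' y3 : L}, At P (l ^ 2 - x - x') y3 →
      1 ≤ v l → v (x - 1) ≤ exp (-1 : ℤ) → v (x' - 1) ≤ exp (-1 : ℤ) → P ∈ H := by
    intro P l x x' y3 hA hl hx hx'
    by_contra hcon
    obtain ⟨h2, -⟩ := hsing hA hcon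
    have e : l ^ 2 = (l ^ 2 - x - x' - 1) + (x - 1) + (x' - 1) + 3 := by ring
    have h3 : v (l ^ 2) < 1 := by
      rw [e]
      exact vaddl (vaddl (vaddl (lt_one_iff.2 h2) (lt_one_iff.2 hx)) (lt_one_iff.2 hx')) v3l
    rw [map_pow] at h3
    exact absurd h3 (not_lt.2 (one_le_pow₀ hl))
  have hdbl : ∀ {P : (Ec L).toAffine.Point}, P ∉ H → P + P ∈ H := by
    intro P hP
    obtain ⟨x, y, hA⟩ := not_mem_at hP
    obtain ⟨hx, -⟩ := hsing hA hP
    have hy := hy2 hA hP
    by_cases hy0 : 2 * y = 0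
    · have h2 : -y = y := by linear_combination -hy0
      have h3 := hA.neg
      rw [h2] at h3
      have h4 : P = -P := hA.ext h3
      have h5 : P + P = 0 := by
        nth_rewrite 2 [h4]
        exact add_neg_cancel P
      rw [h5]
      exact zero_mem _
    · obtain ⟨y3, h3⟩ := hA.dbl hy0
      refine hslope h3 ?_ hx hx
      refine div_ge (k := -e) ?_ ?_ hy0
      · rw [map_mul, map_pow, hx1 hx, one_pow, mul_one, v3]
      · rw [map_mul, v2, one_mul]
        exact hy
  have hadd : ∀ {P Q : (Ec L).toAffine.Point} {x y x' y' : L}, At P x y → At Q x' y' →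
      P ∉ H → Q ∉ H → v (x - x') ≤ exp (-e) → P - Q ∈ H := by
    intro P Q x y x' y' hA hA' hP hQ hxx'
    have hPQ : P + Q ∈ H → P - Q ∈ H := by
      intro h
      have e : P - Q = (P + Q) - (Q + Q) := by abel
      rw [e]
      exact sub_mem h (hdbl hQ)
    obtain ⟨hx, -⟩ := hsing hA hP
    obtain ⟨hx', -⟩ := hsing hA' hQ
    have hy := hy2 hA hP
    have hy' := hy2 hA' hQ
    have he := hA.eqn
    have he' := hA'.eqn
    by_cases hxx : x = x'
    · subst hxx
      have e1 : (y - y') * (y + y') = 0 := by linear_combination he - he'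
      rcases mul_eq_zero.1 e1 with h | h
      · have h1 : y = y' := sub_eq_zero.1 h
        subst h1
        rw [hA.ext hA', sub_self]
        exact zero_mem _
      · apply hPQ
        have h1 : y = -y' := by linear_combination h
        rw [h1] at hA
        rw [hA.ext hA'.neg, neg_add_cancel]
        exact zero_mem _
    · apply hPQ
      obtain ⟨y3, h3⟩ := hA.add hA' hxx
      refine hslope h3 ?_ hx hx'
      have hxx0 : x - x' ≠ 0 := sub_ne_zero.2 hxx
      have vx : v x = 1 := hx1 hx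
      have hq : v (x ^ 2 + x * x' + x' ^ 2) = exp (-e) := by
        have e' : x ^ 2 + x * x' + x' ^ 2 = 3 * x ^ 2 + (x - x') * ((x - x') - 3 * x) := by ring
        have h4 : v (3 * x ^ 2) = exp (-e) := by
          rw [map_mul, map_pow, vx, one_pow, mul_one, v3]
        have h5 : v ((x - x') * ((x - x') - 3 * x)) < v (3 * x ^ 2) := by
          rw [h4]
          have h6 : v ((x - x') - 3 * x) ≤ exp (-e) := by
            refine vsub hxx' ?_
            rw [map_mul, vx, mul_one, v3]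
          refine lt_of_le_of_lt (vmul hxx' h6) ?_
          rw [exp_lt_exp]
          omega
        rw [e', Valuation.map_add_eq_of_lt_left v h5, h4]
      have hs : v (y + y') ≤ exp (-e) := vadd hy hy'
      have hprod : (y - y') * (y + y') = (x - x') * (x ^ 2 + x * x' + x' ^ 2) := by
        linear_combination he - he'
      have hs0 : y + y' ≠ 0 := by
        intro h0
        rw [h0, mul_zero] at hprod
        rcases mul_eq_zero.1 hprod.symm with h | h
        · exact hxx0 h
        · rw [h, map_zero] at hq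
          exact exp_ne_zero hq.symm
      have e' : (y - y') / (x - x') = (x ^ 2 + x * x' + x' ^ 2) / (y + y') := by
        rw [div_eq_div_iff hxx0 hs0, hprod]
        ring
      rw [e']
      exact div_ge hq hs hs0
  have hclt : ∀ q : (Ec L).toAffine.Point ⧸ H, ∃ P : (Ec L).toAffine.Point,
      (QuotientAddGroup.mk P : (Ec L).toAffine.Point ⧸ H) = q :=
    fun q => QuotientAddGroup.mk_surjective q
  choose rp hrp using hclt
  have hF : ∀ q : (Ec L).toAffine.Point ⧸ H, ∃ o : Option (Fin 3),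
      (rp q ∈ H ∧ o = none) ∨ (rp q ∉ H ∧ ∃ (k : Fin 3) (x y : L), o = some k ∧ At (rp q) x y ∧
        v (x - r k) ≤ exp (-e)) := by
    intro q
    by_cases h : rp q ∈ H
    · exact ⟨none, Or.inl ⟨h, rfl⟩⟩
    · obtain ⟨k, x, y, h2, h3⟩ := hcls h
      exact ⟨some k, Or.inr ⟨h, k, x, y, rfl, h2, h3⟩⟩
  choose F hF using hF
  have hinj : Function.Injective F := by
    intro q q' hqq
    have h2 : rp q - rp q' ∈ H := by
      rcases hF q with ⟨h3, h4⟩ | ⟨h3, k, x, y, h4, h5, h6⟩
      · rcases hF q' with ⟨h3', h4'⟩ | ⟨h3', k', x', y', h4', h5', h6'⟩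
        · exact sub_mem h3 h3'
        · rw [h4, h4'] at hqq
          exact absurd hqq (by simp)
      · rcases hF q' with ⟨h3', h4'⟩ | ⟨h3', k', x', y', h4', h5', h6'⟩
        · rw [h4, h4'] at hqq
          exact absurd hqq (by simp)
        · rw [h4, h4'] at hqq
          have hkk : k = k' := Option.some_injective _ hqq
          subst hkk
          refine hadd h5 h5' h3 h3' ?_
          have e' : x - x' = (x - r k) - (x' - r k) := by ring
          rw [e']
          exact vsub h6 h6'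
    rw [← hrp q, ← hrp q', ← sub_eq_zero, ← QuotientAddGroup.mk_sub]
    exact (QuotientAddGroup.eq_zero_iff _).2 h2
  have hfin : Finite ((Ec L).toAffine.Point ⧸ H) := Finite.of_injective F hinj
  have hcard : Nat.card ((Ec L).toAffine.Point ⧸ H) ≤ 4 := by
    refine (Nat.card_le_card_of_injective F hinj).trans ?_
    simp
  refine card_two hcard fun q => ?_
  rw [← hrp q, ← QuotientAddGroup.mk_add]
  apply (QuotientAddGroup.eq_zero_iff _).2
  by_cases h : rp q ∈ H
  · exact add_mem h h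
  · exact hdbl h

/-- the places unramified over three -/
theorem t3a (v3 : v (3 : L) = exp (-1 : ℤ)) (H : AddSubgroup (Ec L).toAffine.Point)
    (hH : ∀ P, P ∈ H ↔ NonsingRed v (Ec L) P) : H.index = 1 ∨ H.index = 2 ∨ H.index = 4 := by
  refine core (e := 1) le_rfl (by norm_num) v3 hH
    (fun hA hP => (hsing le_rfl (by norm_num) v3 hH hA hP).2) (fun _ => 1) ?_
  intro P hP
  obtain ⟨x, y, hA⟩ := not_mem_at hP
  exact ⟨0, x, y, hA, (hsing le_rfl (by norm_num) v3 hH hA hP).1⟩

/-- the places of ramification index two over three -/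
theorem t3b (θ : L) (hvθ : v θ = exp (-1 : ℤ)) (v3 : v (3 : L) = exp (-2 : ℤ))
    (H : AddSubgroup (Ec L).toAffine.Point)
    (hH : ∀ P, P ∈ H ↔ NonsingRed v (Ec L) P) : H.index = 1 ∨ H.index = 2 ∨ H.index = 4 := by
  have hθ0 : θ ≠ 0 := by
    rintro rfl
    rw [map_zero] at hvθ
    exact exp_ne_zero hvθ.symm
  obtain ⟨u, hu3⟩ : ∃ u : L, 3 = θ ^ 2 * u := ⟨3 / θ ^ 2, by field_simp⟩
  have hu : v u = 1 := by
    have h1 := v3
    rw [hu3, map_mul, map_pow, hvθ] at h1
    have h2 : exp (-1 : ℤ) ^ 2 = (exp (-2 : ℤ) : ℤᵐ⁰) := by rw [← exp_nsmul]; rfl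
    rw [h2] at h1
    have h3 : exp (-2 : ℤ) * v u = exp (-2 : ℤ) * 1 := by rw [h1, mul_one]
    exact mul_left_cancel₀ exp_ne_zero h3
  -- the equation in terms of `t = (x - 1) / θ`
  have het : ∀ {P : (Ec L).toAffine.Point} {x y : L}, At P x y → P ∉ H →
      ∃ t : L, x = 1 + θ * t ∧ v t ≤ 1 ∧ y ^ 2 = θ ^ 3 * (t ^ 3 + θ * u * t ^ 2 + u * t) := by
    intro P x y hA hP
    obtain ⟨h1, -⟩ := hsing (by norm_num) le_rfl v3 hH hA hP
    have he := hA.eqn
    have ht : x = 1 + θ * ((x - 1) / θ) := by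
      rw [mul_div_cancel₀ _ hθ0]
      ring
    refine ⟨(x - 1) / θ, ht, ?_, ?_⟩
    · rw [map_div₀, hvθ]
      exact (div_le_one₀ exp_pos).2 h1
    · rw [he]
      generalize (x - 1) / θ = t at ht
      rw [ht]
      linear_combination (θ * t + θ ^ 2 * t ^ 2) * hu3
  have hy2 : ∀ {P : (Ec L).toAffine.Point} {x y : L}, At P x y → P ∉ H →
      v y ≤ exp (-2 : ℤ) := by
    intro P x y hA hP
    obtain ⟨t, -, ht, h1⟩ := het hA hP
    have h2 : v (y ^ 2) ≤ exp (-3 : ℤ) := by
      rw [h1, map_mul]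
      have h3 : v (θ ^ 3) ≤ exp (-3 : ℤ) := vle (vpow hvθ.le 3) (by norm_num)
      have h4 : v (t ^ 3 + θ * u * t ^ 2 + u * t) ≤ 1 := by
        refine vadd (vadd ?_ ?_) ?_
        · rw [map_pow]; exact pow_le_one₀ zero_le' ht
        · rw [map_mul, map_mul, map_pow, hu, mul_one]
          refine mul_le_one' ?_ (pow_le_one₀ zero_le' ht)
          rw [hvθ]
          exact (lt_one_iff.2 le_rfl).le
        · rw [map_mul, hu, one_mul]
          exact ht
      calc v (θ ^ 3) * v (t ^ 3 + θ * u * t ^ 2 + u * t) ≤ exp (-3 : ℤ) * 1 := mul_le_mul' h3 h4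
        _ = _ := mul_one _
    exact sq_le h2 (by norm_num)
  have h2 : ∀ {P : (Ec L).toAffine.Point} {x y t : L}, At P x y → P ∉ H → x = 1 + θ * t → v t ≤ 1 →
      y ^ 2 = θ ^ 3 * (t ^ 3 + θ * u * t ^ 2 + u * t) → v (t * (t ^ 2 + u)) < 1 := by
    intro P x y t hA hP hx ht h1
    have hy := hy2 hA hP
    have h3 : v (t ^ 3 + θ * u * t ^ 2 + u * t) < 1 := by
      by_contra h4
      rw [not_lt] at h4
      have h5 : v (y ^ 2) ≤ exp (-4 : ℤ) := vle (vpow hy 2) (by norm_num)
      rw [h1, map_mul, map_pow, hvθ] at h5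
      have h6 : exp (-3 : ℤ) ≤ exp (-4 : ℤ) := by
        calc exp (-3 : ℤ) = exp (-1 : ℤ) ^ 3 * 1 := by rw [mul_one]; rfl
          _ ≤ exp (-1 : ℤ) ^ 3 * v (t ^ 3 + θ * u * t ^ 2 + u * t) := mul_le_mul' le_rfl h4
          _ ≤ _ := h5
      rw [exp_le_exp] at h6
      norm_num at h6
    have e : t * (t ^ 2 + u) = (t ^ 3 + θ * u * t ^ 2 + u * t) - θ * u * t ^ 2 := by ring
    rw [e]
    refine vsubl h3 ?_
    rw [map_mul, map_mul, map_pow, hu, mul_one]
    refine m2l ?_ (pow_le_one₀ zero_le' ht)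
    rw [hvθ]
    exact lt_one_iff.2 le_rfl
  -- the representatives of the classes
  obtain ⟨t0, ht0⟩ : ∃ t0 : L, ∀ {P : (Ec L).toAffine.Point} {x y t : L}, At P x y → P ∉ H →
      x = 1 + θ * t → v t ≤ 1 → y ^ 2 = θ ^ 3 * (t ^ 3 + θ * u * t ^ 2 + u * t) →
      v t < 1 ∨ v (t - t0) < 1 ∨ v (t + t0) < 1 := by
    have hfac : ∀ {t : L}, v (t * (t ^ 2 + u)) < 1 → ¬ v t < 1 → v (t ^ 2 + u) < 1 := by
      intro t h h'
      by_contra hc
      rw [not_lt] at hc h'
      rw [map_mul] at h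
      exact absurd h (not_lt.2 (one_le_mul h' hc))
    by_cases hex : ∃ (P : (Ec L).toAffine.Point) (x y t : L), At P x y ∧ P ∉ H ∧ x = 1 + θ * t ∧
        v t ≤ 1 ∧ y ^ 2 = θ ^ 3 * (t ^ 3 + θ * u * t ^ 2 + u * t) ∧ ¬ v t < 1
    · obtain ⟨P0, x0, y0, t0, a1, a2, a3, a4, a5, a6⟩ := hex
      refine ⟨t0, ?_⟩
      intro P x y t b1 b2 b3 b4 b5
      by_cases h : v t < 1
      · exact Or.inl h
      · right
        have c1 := hfac (h2 b1 b2 b3 b4 b5) h
        have c2 := hfac (h2 a1 a2 a3 a4 a5) a6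
        have c3 : v ((t - t0) * (t + t0)) < 1 := by
          have e : (t - t0) * (t + t0) = (t ^ 2 + u) - (t0 ^ 2 + u) := by ring
          rw [e]
          exact vsubl c1 c2
        by_contra hc
        rw [not_or, not_lt, not_lt] at hc
        rw [map_mul] at c3
        exact absurd c3 (not_lt.2 (one_le_mul hc.1 hc.2))
    · refine ⟨0, ?_⟩
      intro P x y t b1 b2 b3 b4 b5
      left
      by_contra hc
      exact hex ⟨P, x, y, t, b1, b2, b3, b4, b5, hc⟩
  refine core (e := 2) (by norm_num) le_rfl v3 hH hy2 (fun k => 1 + θ * (![0, t0, -t0] k)) ?_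
  intro P hP
  obtain ⟨x, y, hA⟩ := not_mem_at hP
  obtain ⟨t, hx, ht, h1⟩ := het hA hP
  have key : ∀ r : L, v (t - r) < 1 → v (x - (1 + θ * r)) ≤ exp (-2 : ℤ) := by
    intro r hr
    have e : x - (1 + θ * r) = θ * (t - r) := by rw [hx]; ring
    rw [e]
    exact vle (vmul hvθ.le (lt_one_iff.1 hr)) (by norm_num)
  rcases ht0 hA hP hx ht h1 with h4 | h4 | h4
  · exact ⟨0, x, y, hA, key 0 (by rwa [sub_zero])⟩
  · exact ⟨1, x, y, hA, key t0 h4⟩
  · exact ⟨2, x, y, hA, key (-t0) (by rwa [sub_neg_eq_add])⟩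

end

end Pool.Agent.W2helper53.TQ
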