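import Mathlib
import Pool.Agent.W2helper24.TQ.Stm3
import Pool.Agent.W2helper93.TQ.A9
import Pool.Agent.W2helper53.TQ.G2L

/-!
# Piece G2: minimality and the local indices of `y² = x³ - 1` over the subfields `k` of `F`
-/

set_option autoImplicit false

namespace Pool.Agent.W2helper53.TQ

open NumberField IsDedekindDomain WithZero WeierstrassCurve
open Pool.Agent.Y696 (NonsingRed exists_above)
open Pool.Agent.W2helper24.TQ (Em Ram P_G2)
open Pool.Agent.W2helper93.TQ
open scoped Classical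

section val
variable {K F k : Type} [Field K] [NumberField K] [IsCyclotomicExtension {3} ℚ K] [Field F]
  [NumberField F] [Algebra K F] [Field k] [NumberField k] [Algebra k F]

/-- the valuation of an element of the smaller field -/
lemma val_root {v : HeightOneSpectrum (𝓞 k)} {w : HeightOneSpectrum (𝓞 F)}
    (hlo : w.asIdeal.LiesOver v.asIdeal) {x : k} {m : ℕ} (hm : m ≠ 0)
    (hx : w.valuation F (algebraMap k F x) = exp (-(m : ℤ))) :
    ∃ a e : ℕ, a * e = m ∧ v.valuation k x = exp (-(a : ℤ)) := by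
  have h1 := HeightOneSpectrum.valuation_liesOver F v w x
  rw [hx] at h1
  set e := v.asIdeal.ramificationIdx' w.asIdeal with he
  have h0 : v.valuation k x ≠ 0 := by
    intro h
    rw [h] at h1
    rcases Nat.eq_zero_or_pos e with h2 | h2
    · rw [h2, pow_zero, ← exp_zero, exp_inj] at h1
      omega
    · rw [zero_pow h2.ne'] at h1
      exact exp_ne_zero h1.symm
  have h2 : log (v.valuation k x) * e = -(m : ℤ) := by
    have h3 := congrArg log h1
    rw [log_pow, log_exp, nsmul_eq_mul] at h3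
    rw [mul_comm]
    exact h3
  have he0 : 0 < (e : ℤ) := by
    rcases Nat.eq_zero_or_pos e with h3 | h3
    · rw [h3] at h2
      simp only [Nat.cast_zero, mul_zero] at h2
      omega
    · exact_mod_cast h3
  have h3 : log (v.valuation k x) < 0 := by
    by_contra h
    rw [not_lt] at h
    have := mul_nonneg h he0.le
    omega
  refine ⟨(-log (v.valuation k x)).toNat, e, ?_, ?_⟩
  · zify
    rw [Int.toNat_of_nonneg (by omega)]
    linarith
  · rw [Int.toNat_of_nonneg (by omega), neg_neg, exp_log h0]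

omit [IsCyclotomicExtension {3} ℚ K] [Algebra K F] [NumberField F] [NumberField K] [Field K] in
lemma mem_above {v : HeightOneSpectrum (𝓞 k)} {w : HeightOneSpectrum (𝓞 F)}
    (hlo : w.asIdeal.LiesOver v.asIdeal) {n : ℕ} (hv : (n : 𝓞 k) ∈ v.asIdeal) :
    (n : 𝓞 F) ∈ w.asIdeal := by
  have h := hlo.over
  rw [h, Ideal.mem_comap, map_natCast] at hv
  exact hv

lemma val_two_k (hR : Ram K F) {v : HeightOneSpectrum (𝓞 k)} (hv : (2 : 𝓞 k) ∈ v.asIdeal) :
    v.valuation k 2 = exp (-1 : ℤ) := by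
  obtain ⟨w, hlo⟩ := exists_above (K := F) v
  have hw : ((2 : ℕ) : 𝓞 F) ∈ w.asIdeal := mem_above hlo (by exact_mod_cast hv)
  have h1 := val_two hR (v := w) (by exact_mod_cast hw)
  obtain ⟨a, e, hae, ha⟩ := val_root hlo (x := (2 : k)) (m := 1) one_ne_zero (by
    rw [map_ofNat, h1]; rfl)
  have : a = 1 := Nat.eq_one_of_mul_eq_one_right hae
  rw [ha, this]
  rfl

lemma val_three_k (hR : Ram K F) {v : HeightOneSpectrum (𝓞 k)} (hv : (3 : 𝓞 k) ∈ v.asIdeal) :
    v.valuation k 3 = exp (-1 : ℤ) ∨ v.valuation k 3 = exp (-2 : ℤ) := by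
  obtain ⟨w, hlo⟩ := exists_above (K := F) v
  have hw : ((3 : ℕ) : 𝓞 F) ∈ w.asIdeal := mem_above hlo (by exact_mod_cast hv)
  obtain ⟨θ, hθ⟩ := exists_theta K
  have h1 := val_theta hR (v := w) (by exact_mod_cast hw) hθ
  have h2 : w.valuation F 3 = exp (-2 : ℤ) := by
    have e : (3 : F) = -(algebraMap K F θ) ^ 2 := by
      rw [← map_pow, hθ, map_neg, map_ofNat, neg_neg]
    rw [e, Valuation.map_neg, map_pow, h1, ← exp_nsmul]
    rfl
  obtain ⟨a, e, hae, ha⟩ := val_root hlo (x := (3 : k)) (m := 2) two_ne_zero (by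
    rw [map_ofNat, h2]; rfl)
  have h3 : a ∣ 2 := ⟨e, hae.symm⟩
  rcases (Nat.dvd_prime Nat.prime_two).1 h3 with h4 | h4
  · left
    rw [ha, h4]
    rfl
  · right
    rw [ha, h4]
    rfl

/-- the kinds of places -/
lemma cases_k (hR : Ram K F) (v : HeightOneSpectrum (𝓞 k)) :
    (Valued.v (2 : v.adicCompletion k) = 1 ∧ Valued.v (3 : v.adicCompletion k) = 1) ∨
    (Valued.v (2 : v.adicCompletion k) = exp (-1 : ℤ) ∧ Valued.v (3 : v.adicCompletion k) = 1) ∨
    (Valued.v (2 : v.adicCompletion k) = 1 ∧ Valued.v (3 : v.adicCompletion k) = exp (-1 : ℤ)) ∨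
    (Valued.v (2 : v.adicCompletion k) = 1 ∧ Valued.v (3 : v.adicCompletion k) = exp (-2 : ℤ)) := by
  have hn : ∀ n : ℕ, Valued.v (n : v.adicCompletion k) = v.valuation k (n : k) := by
    intro n
    have h : (n : v.adicCompletion k) = algebraMap k (v.adicCompletion k) (n : k) :=
      (map_natCast (algebraMap k (v.adicCompletion k)) n).symm
    rw [h, Pool.Agent.H723R3.valued_algebraMap]
  have h1 : ∀ n : ℕ, (n : 𝓞 k) ∉ v.asIdeal → Valued.v (n : v.adicCompletion k) = 1 := by
    intro n h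
    rw [hn]
    have : (n : k) = algebraMap (𝓞 k) k n := by rw [map_natCast]
    rw [this, HeightOneSpectrum.valuation_of_algebraMap]
    exact (HeightOneSpectrum.intValuation_eq_one_iff).2 h
  have h23 : (2 : 𝓞 k) ∈ v.asIdeal → (3 : 𝓞 k) ∉ v.asIdeal := by
    intro h2 h3
    apply v.isPrime.ne_top
    rw [Ideal.eq_top_iff_one]
    have : (1 : 𝓞 k) = 3 - 2 := by norm_num
    rw [this]
    exact sub_mem h3 h2
  have e2 : ((2 : ℕ) : v.adicCompletion k) = 2 := by norm_cast
  have e3 : ((3 : ℕ) : v.adicCompletion k) = 3 := by norm_cast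
  by_cases h3 : (3 : 𝓞 k) ∈ v.asIdeal
  · right; right
    have h2' : Valued.v (2 : v.adicCompletion k) = 1 := by
      rw [← e2]
      apply h1
      intro h
      exact h23 (by exact_mod_cast h) h3
    have h3' : Valued.v (3 : v.adicCompletion k) = v.valuation k 3 := by
      rw [← e3, hn]
      norm_cast
    rw [h3']
    rcases val_three_k hR h3 with h | h
    · exact Or.inl ⟨h2', h⟩
    · exact Or.inr ⟨h2', h⟩
  · have h3' : Valued.v (3 : v.adicCompletion k) = 1 := by
      rw [← e3]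
      exact h1 3 (by exact_mod_cast h3)
    by_cases h2 : (2 : 𝓞 k) ∈ v.asIdeal
    · right; left
      refine ⟨?_, h3'⟩
      rw [← e2, hn]
      have := val_two_k hR h2
      exact_mod_cast this
    · left
      refine ⟨?_, h3'⟩
      rw [← e2]
      exact h1 2 (by exact_mod_cast h2)

/-- **the model is minimal at every finite place** -/
theorem min_k (hR : Ram K F) (v : HeightOneSpectrum (𝓞 k)) :
    WeierstrassCurve.IsMinimal (v.adicCompletionIntegers k)
      ((Em k).baseChange (v.adicCompletion k)) := by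
  have hbc : (Em k).baseChange (v.adicCompletion k) = Em (v.adicCompletion k) := Em_map _
  rw [hbc]
  apply isMinimal_Em
  rintro u hu ⟨r, hr⟩
  have h1 : Valued.v (u : v.adicCompletion k) < 1 := (Pool.Agent.W189.NF.mem_max_iff v u).1 hu
  have h2 : Valued.v (u : v.adicCompletion k) ≤ exp (-1 : ℤ) := lt_one_iff.1 h1
  have h3 : Valued.v (r : v.adicCompletion k) ≤ 1 := r.2
  have h4 : (432 : v.adicCompletion k) =
      (u : v.adicCompletion k) ^ 12 * (r : v.adicCompletion k) := by
    have := congrArg (algebraMap (v.adicCompletionIntegers k) (v.adicCompletion k)) hr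
    rw [map_mul, map_pow, map_ofNat] at this
    exact this
  have h5 : Valued.v (432 : v.adicCompletion k) ≤ exp (-12 : ℤ) := by
    rw [h4, map_mul, map_pow]
    calc _ ≤ (exp (-1 : ℤ)) ^ 12 * 1 := by gcongr
      _ = exp (-12 : ℤ) := by rw [mul_one, ← exp_nsmul]; rfl
  have e : (432 : v.adicCompletion k) = 2 ^ 4 * 3 ^ 3 := by norm_num
  have h6 : (exp (-6 : ℤ) : ℤᵐ⁰) ≤ Valued.v (432 : v.adicCompletion k) := by
    rw [e, map_mul, map_pow, map_pow]
    rcases cases_k hR v with ⟨a, b⟩ | ⟨a, b⟩ | ⟨a, b⟩ | ⟨a, b⟩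
    · rw [a, b, one_pow, one_pow, one_mul, ← exp_zero, exp_le_exp]
      norm_num
    · rw [a, b, one_pow, mul_one, ← exp_nsmul, exp_le_exp]
      norm_num
    · rw [a, b, one_pow, one_mul, ← exp_nsmul, exp_le_exp]
      norm_num
    · rw [a, b, one_pow, one_mul, ← exp_nsmul, exp_le_exp]
      norm_num
  have h7 := h6.trans h5
  rw [exp_le_exp] at h7
  norm_num at h7

/-- the index of the points of nonsingular reduction -/
theorem tam_k (hR : Ram K F) (v : HeightOneSpectrum (𝓞 k)) :
    ∃ H : AddSubgroup ((Em k).baseChange (v.adicCompletion k)).toAffine.Point,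
      (∀ P, P ∈ H ↔ NonsingRed Valued.v ((Em k).baseChange (v.adicCompletion k)) P) ∧
      H.index ≠ 0 ∧ ¬ 3 ∣ H.index := by
  have hbc : (Em k).baseChange (v.adicCompletion k) = Ec (v.adicCompletion k) := Em_map _
  rw [hbc]
  have hsub := Pool.Agent.Y891.CTK.sub_of Valued.v (Ec (v.adicCompletion k))
      (by rw [map_zero]; exact zero_le) (by rw [map_zero]; exact zero_le)
      (by rw [map_zero]; exact zero_le) (by rw [map_zero]; exact zero_le)
      (by rw [Valuation.map_neg, map_one])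
  rcases cases_k hR v with ⟨a, b⟩ | ⟨a, b⟩ | ⟨a, b⟩ | ⟨a, b⟩
  · exact ⟨⊤, fun P => ⟨fun _ => tg _ a b P, fun _ => trivial⟩, by
      rw [AddSubgroup.index_top]; norm_num⟩
  · exact ⟨⊤, fun P => ⟨fun _ => t2 _ a b P, fun _ => trivial⟩, by
      rw [AddSubgroup.index_top]; norm_num⟩
  · obtain ⟨H, hH⟩ := hsub
    refine ⟨H, hH, ?_⟩
    rcases t3a b H hH with h | h | h <;> rw [h] <;> norm_num
  · obtain ⟨H, hH⟩ := hsub
    refine ⟨H, hH, ?_⟩
    obtain ⟨ϖ, hϖ⟩ := v.valuation_exists_uniformizer k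
    have hv : Valued.v (algebraMap k (v.adicCompletion k) ϖ) = exp (-1 : ℤ) := by
      rw [Pool.Agent.H723R3.valued_algebraMap, hϖ]
    rcases t3b _ hv b H hH with h | h | h <;> rw [h] <;> norm_num

end val

/-- **PIECE G2** -/
theorem piece : P_G2 := by
  intro K F k _ _ _ _ _ _ _ _ _ _ n _ hR _ _ v
  exact ⟨min_k hR v, tam_k hR v⟩

end Pool.Agent.W2helper53.TQ
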